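import Pool.Agent.Helper61.PC.Cop
import Pool.Agent.Helper77.GS.Cl
import Pool.Agent.Helper16.FIN.Line
import Pool.Agent.Helper61.FIN.TwinX

/-!
# Project PC: points defined over the base lie in the span of few copies
-/

set_option autoImplicit false

namespace Pool.Agent.PC

open Pool.Agent.GS Pool.Agent.FIN

universe u

/-- The vectors of the copies of `s + 1` independent elements are linearly independent. -/
theorem indep_copies {F E Ω : Type u} [Field F] [Field E] [Field Ω] [Algebra F E] [Algebra F Ω] {p t : ℕ}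
    (C : Cop F E Ω p) (z : Fin t → E) (hz : LinearIndependent F z) (m : ℕ) (hmp : m ≤ p) (hmt : m ≤ t) :
    LinearIndependent Ω (fun a : Fin m => fun i : Fin t => C.φ ⟨a.1, lt_of_lt_of_le a.2 hmp⟩ (z i)) := by
  classical
  induction m with
  | zero => exact linearIndependent_empty_type
  | succ m ih =>
    have ih' := ih (by omega) (by omega)
    rw [linearIndependent_finSucc']
    refine ⟨?_, ?_⟩
    · exact ih'
    · intro hmem
      set b : Fin p := ⟨m, by omega⟩ with hb
      let M : Matrix (Fin m) (Fin t) (C.L b) := fun a i =>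
        ⟨C.φ ⟨a.1, by omega⟩ (z i), C.mem b ⟨a.1, by omega⟩ (by rw [hb]; exact Fin.mk_lt_mk.mpr a.2) (z i)⟩
      have hker : LinearMap.ker M.mulVecLin ≠ ⊥ := by
        apply LinearMap.ker_ne_bot_of_finrank_lt
        rw [Module.finrank_fin_fun, Module.finrank_fin_fun]
        omega
      obtain ⟨y, hy, hy0⟩ := (Submodule.ne_bot_iff _).1 hker
      rw [LinearMap.mem_ker, Matrix.mulVecLin_apply] at hy
      have h1 : ∀ a : Fin m, ∑ i, (y i : Ω) * C.φ ⟨a.1, by omega⟩ (z i) = 0 := by
        intro a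
        have h2 := congrFun hy a
        have h3 := congrArg (fun w : C.L b => (w : Ω)) h2
        simp only [Matrix.mulVec, dotProduct, Pi.zero_apply, ZeroMemClass.coe_zero] at h3
        rw [← h3]
        push_cast
        refine Finset.sum_congr rfl fun i _ => ?_
        rw [mul_comm]
      let lin : (Fin t → Ω) →ₗ[Ω] Ω := Fintype.linearCombination Ω (fun i => (y i : Ω))
      have hlin : ∀ g : Fin t → Ω, lin g = ∑ i, (y i : Ω) * g i := by
        intro g
        simp only [lin, Fintype.linearCombination_apply, smul_eq_mul]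
        refine Finset.sum_congr rfl fun i _ => ?_
        rw [mul_comm]
      have h4 : Submodule.span Ω (Set.range (Fin.init fun a : Fin (m + 1) => fun i : Fin t =>
          C.φ ⟨a.1, lt_of_lt_of_le a.2 hmp⟩ (z i))) ≤ LinearMap.ker lin := by
        rw [Submodule.span_le]
        rintro _ ⟨a, rfl⟩
        change lin _ = 0
        rw [hlin]
        exact h1 a
      have h5 : lin (fun i : Fin t => C.φ b (z i)) = 0 := h4 hmem
      rw [hlin] at h5
      have h6 := C.ld b z hz (fun i => (y i : Ω)) (fun i => (y i).2) h5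
      apply hy0
      funext i
      apply Subtype.ext
      exact h6 i

/-- A vector defined over `F` from the vector `x` is a combination of the first `s + 1` copies. -/
theorem comb0 {F E Ω : Type u} [Field F] [Field E] [Field Ω] [Algebra F E] [Algebra F Ω] {p N s : ℕ}
    (C : Cop F E Ω p) (x : Fin (N + 1) → E) (j0 : Fin (N + 1)) (hx0 : x j0 = 1)
    (hs : Module.finrank F (Submodule.span F (Set.range x)) = s + 1) (hsp : s + 1 ≤ p) (v : Fin (N + 1) → Ω) (hv0 : v j0 = 1)
    (hv : ∀ c : Fin (N + 1) → F, ∑ j, c j • x j = 0 → ∑ j, c j • v j = 0) :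
    ∃ w : Fin (s + 1) → Ω, (∀ j, v j = ∑ a, w a * C.φ ⟨a.1, lt_of_lt_of_le a.2 hsp⟩ (x j)) ∧ ∑ a, w a = 1 := by
  classical
  obtain ⟨κ, J, hJ, hspan, hli⟩ := exists_linearIndependent' F x
  have : Finite κ := Finite.of_injective J hJ
  have : Fintype κ := Fintype.ofFinite κ
  have hcard : Fintype.card κ = s + 1 := by
    rw [← hs, ← hspan]
    exact (finrank_span_eq_card hli).symm
  let e : Fin (s + 1) ≃ κ := (Fintype.equivFinOfCardEq hcard).symm
  set z : Fin (s + 1) → E := fun i => x (J (e i)) with hz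
  have hzli : LinearIndependent F z := hli.comp e e.injective
  have hzspan : Submodule.span F (Set.range z) = Submodule.span F (Set.range x) := by
    rw [← hspan]
    congr 1
    exact e.surjective.range_comp (x ∘ J)
  have hu := indep_copies C z hzli (s + 1) hsp le_rfl
  have htop := hu.span_eq_top_of_card_eq_finrank' (by rw [Fintype.card_fin, Module.finrank_fin_fun])
  have hmem : (fun i : Fin (s + 1) => v (J (e i))) ∈ Submodule.span Ω (Set.range (fun a : Fin (s + 1) => fun i : Fin (s + 1) =>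
      C.φ ⟨a.1, lt_of_lt_of_le a.2 hsp⟩ (z i))) := by
    rw [htop]; trivial
  rw [Submodule.mem_span_range_iff_exists_fun] at hmem
  obtain ⟨w, hw⟩ := hmem
  have hw' : ∀ i, v (J (e i)) = ∑ a, w a * C.φ ⟨a.1, lt_of_lt_of_le a.2 hsp⟩ (x (J (e i))) := by
    intro i
    have := congrFun hw i
    simp only [Finset.sum_apply, Pi.smul_apply, smul_eq_mul] at this
    exact this.symm
  have hall : ∀ j, v j = ∑ a, w a * C.φ ⟨a.1, lt_of_lt_of_le a.2 hsp⟩ (x j) := by
    intro j
    have hxj : x j ∈ Submodule.span F (Set.range z) := by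
      rw [hzspan]
      exact Submodule.subset_span ⟨j, rfl⟩
    rw [Submodule.mem_span_range_iff_exists_fun] at hxj
    obtain ⟨c, hc⟩ := hxj
    have hrel : ∀ (W : Type u) [AddCommGroup W] [Module F W] (f : Fin (N + 1) → W),
        ∑ l, ((Pi.single j 1 - ∑ i, c i • Pi.single (J (e i)) 1 : Fin (N + 1) → F) l) • f l =
          f j - ∑ i, c i • f (J (e i)) := by
      intro W _ _ f
      have h1 := (Fintype.linearCombination_apply F f (Pi.single j 1 - ∑ i, c i • Pi.single (J (e i)) 1 : Fin (N + 1) → F)).symm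
      rw [h1, map_sub, map_sum, Fintype.linearCombination_apply_single, one_smul]
      congr 1
      refine Finset.sum_congr rfl fun i _ => ?_
      rw [map_smul, Fintype.linearCombination_apply_single, one_smul]
    have hv1 := hv _ (by rw [hrel E x, sub_eq_zero]; exact hc.symm)
    rw [hrel Ω v, sub_eq_zero] at hv1
    rw [hv1, ← hc]
    simp only [map_sum, map_smul]
    rw [Finset.sum_congr rfl fun i _ => by rw [hw' i]]
    simp only [Finset.smul_sum, Finset.mul_sum]
    rw [Finset.sum_comm]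
    refine Finset.sum_congr rfl fun a _ => Finset.sum_congr rfl fun i _ => ?_
    rw [mul_smul_comm]
  refine ⟨w, hall, ?_⟩
  have h0 := hall j0
  rw [hx0, hv0] at h0
  rw [h0]
  refine Finset.sum_congr rfl fun a _ => ?_
  rw [map_one, mul_one]

theorem comb {k₀ F E Ω : Type u} [Field k₀] [Field F] [Field E] [Field Ω] [Algebra F E] [Algebra F Ω] [Algebra k₀ Ω] {p N s : ℕ}
    (C : Cop F E Ω p) (x : Fin (N + 1) → E) (j0 : Fin (N + 1)) (hx0 : x j0 = 1)
    (hs : Module.finrank F (Submodule.span F (Set.range x)) = s + 1) (hsp : s + 1 ≤ p) (v : Fin (N + 1) → Ω) (hv0 : v j0 = 1)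
    (hv : ∀ c : Fin (N + 1) → F, ∑ j, c j • x j = 0 → ∑ j, c j • v j = 0) :
    ∃ w : Fin s → Ω, ∀ j, v j ∈ cl k₀ ((⋃ a : {a : Fin p // a.1 < s + 1}, Set.range fun j => C.φ a.1 (x j)) ∪ Set.range w) := by
  classical
  obtain ⟨w, hw, hsum⟩ := comb0 C x j0 hx0 hs hsp v hv0 hv
  refine ⟨fun a => w a.castSucc, fun j => ?_⟩
  set S : Set Ω := (⋃ a : {a : Fin p // a.1 < s + 1}, Set.range fun j => C.φ a.1 (x j)) ∪ Set.range (fun a : Fin s => w a.castSucc)
    with hS
  have h1 : ∀ a : Fin s, w a.castSucc ∈ cl k₀ S := fun a => subset_cl S (Or.inr ⟨a, rfl⟩)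
  have h2 : ∀ a : Fin (s + 1), w a ∈ cl k₀ S := by
    intro a
    refine Fin.lastCases ?_ h1 a
    rw [Fin.sum_univ_castSucc] at hsum
    have h3 : w (Fin.last s) = 1 - ∑ a : Fin s, w a.castSucc := by rw [← hsum]; ring
    rw [h3]
    exact cl_sub (cl_one S) (cl_sum _ _ fun a _ => h1 a)
  rw [hw j]
  refine cl_sum _ _ fun a _ => cl_mul (h2 a) (subset_cl S (Or.inl ?_))
  exact Set.mem_iUnion.2 ⟨⟨⟨a.1, lt_of_lt_of_le a.2 hsp⟩, a.2⟩, ⟨j, rfl⟩⟩

theorem rk_copies {k₀ F E Ω : Type u} [Field k₀] [Field F] [Field E] [Field Ω] [Algebra F E] [Algebra F Ω] [Algebra k₀ Ω]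
    {p N s : ℕ} (C : Cop F E Ω p) (x : Fin (N + 1) → E) (j0 : Fin (N + 1)) (hx0 : x j0 = 1)
    (hs : Module.finrank F (Submodule.span F (Set.range x)) = s + 1) (hsp : s + 1 ≤ p) {n : ℕ}
    (hn : ∀ a, rk k₀ (Set.range fun j => C.φ a (x j)) ≤ n) :
    rk k₀ (⋃ a, Set.range fun j => C.φ a (x j)) ≤ (((s + 1) * n + (p - s - 1) * s : ℕ) : ℕ∞) := by
  classical
  have hc : ∀ a : Fin p, ∃ w : Fin s → Ω, ∀ j, C.φ a (x j) ∈
      cl k₀ ((⋃ a : {a : Fin p // a.1 < s + 1}, Set.range fun j => C.φ a.1 (x j)) ∪ Set.range w) := by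
    intro a
    refine comb (k₀ := k₀) C x j0 hx0 hs hsp (fun j => C.φ a (x j)) (by simp only [hx0, map_one]) ?_
    intro c hc
    have := congrArg (C.φ a) hc
    rw [map_sum, map_zero] at this
    rw [← this]
    refine Finset.sum_congr rfl fun j _ => ?_
    rw [map_smul]
  choose w hw using hc
  set A : Finset (Fin p) := Finset.univ.filter fun a => a.1 < s + 1 with hA
  set B : Finset (Fin p) := Finset.univ.filter fun a => ¬ a.1 < s + 1 with hB
  have hAc : A.card = s + 1 := by
    have h1 : A = (Finset.univ : Finset (Fin (s + 1))).map (Fin.castLEEmb hsp) := by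
      ext a
      simp only [hA, Finset.mem_filter, Finset.mem_univ, true_and, Finset.mem_map, Fin.castLEEmb_apply]
      constructor
      · intro h
        exact ⟨⟨a.1, h⟩, Fin.ext rfl⟩
      · rintro ⟨b, rfl⟩
        exact b.2
    rw [h1, Finset.card_map, Finset.card_univ, Fintype.card_fin]
  have hBc : B.card = p - s - 1 := by
    have h1 := Finset.card_filter_add_card_filter_not (s := (Finset.univ : Finset (Fin p))) (fun a => a.1 < s + 1)
    rw [Finset.card_univ, Fintype.card_fin] at h1
    change A.card + B.card = p at h1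
    omega
  have hsub : (⋃ a, Set.range fun j => C.φ a (x j)) ⊆
      cl k₀ ((⋃ a ∈ A, Set.range fun j => C.φ a (x j)) ∪ ⋃ a ∈ B, Set.range (w a)) := by
    intro y hy
    obtain ⟨a, j, rfl⟩ := Set.mem_iUnion.1 hy
    change C.φ a (x j) ∈ _
    by_cases ha : a.1 < s + 1
    · refine subset_cl _ (Or.inl ?_)
      exact Set.mem_iUnion₂.2 ⟨a, Finset.mem_filter.2 ⟨Finset.mem_univ _, ha⟩, ⟨j, rfl⟩⟩
    · refine cl_mono ?_ (hw a j)
      refine Set.union_subset_union ?_ ?_
      · refine Set.iUnion_subset fun b => ?_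
        intro y hy
        exact Set.mem_iUnion₂.2 ⟨b.1, Finset.mem_filter.2 ⟨Finset.mem_univ _, b.2⟩, hy⟩
      · intro y hy
        exact Set.mem_iUnion₂.2 ⟨a, Finset.mem_filter.2 ⟨Finset.mem_univ _, ha⟩, hy⟩
  refine (rk_le_of_subset hsub).trans ((rk_union _ _).trans ?_)
  push_cast
  refine add_le_add ?_ ?_
  · have h1 := rk_iUnion61 A (fun a => Set.range fun j => C.φ a (x j)) n (fun a _ => hn a)
    rw [hAc] at h1
    exact_mod_cast h1
  · have h1 := rk_iUnion61 B (fun a => Set.range (w a)) s (fun a _ => by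
      have := rk_image_le (k := k₀) (Finset.univ : Finset (Fin s)) (w a)
      rw [Finset.coe_univ, Set.image_univ, Finset.card_univ, Fintype.card_fin] at this
      exact this)
    rw [hBc] at h1
    exact_mod_cast h1

end Pool.Agent.PC
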