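import Mathlib

/-!
# PC (helper17): the linear Cauchy-Davenport theorem over an algebraically closed field

Linear e-transform. `dim (A B) ≥ dim A + dim B - 1` for finite-dimensional nonzero subspaces of an extension field of an
algebraically closed field.
-/

set_option autoImplicit false

namespace Pool.Agent.Helper17.PC

open Module Submodule

variable {F E : Type*} [Field F] [Field E] [Algebra F E]

/-- multiplication by a nonzero element, as a linear equivalence -/
private noncomputable def mulEq (e : E) (he : e ≠ 0) : E ≃ₗ[F] E :=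
  LinearEquiv.ofLinearMap (LinearMap.mulLeft F e) (LinearMap.mulLeft F e⁻¹)
    (by
      ext x
      simp [he])
    (by
      ext x
      simp [he])

private theorem mulEq_apply (e : E) (he : e ≠ 0) (x : E) : mulEq (F := F) e he x = e * x := rfl

/-- elements which preserve a finite-dimensional nonzero subspace are algebraic -/
private theorem alg_of_stab (A : Submodule F E) (hA : A ≠ ⊥) [FiniteDimensional F A] (b : E) (h : ∀ a ∈ A, b * a ∈ A) :
    IsAlgebraic F b := by
  obtain ⟨a, ha, ha0⟩ := (Submodule.ne_bot_iff A).1 hA
  have hf : ∀ x ∈ A, (LinearMap.mulLeft F b) x ∈ A := fun x hx => h x hx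
  obtain ⟨f, hfd⟩ : ∃ f : Module.End F A, ∀ x, ((f x : A) : E) = b * x :=
    ⟨(LinearMap.mulLeft F b).restrict hf, fun x => rfl⟩
  have h1 : ∀ p : Polynomial F, ∀ x : A, (((Polynomial.aeval f p) x : A) : E) = Polynomial.aeval b p * x := by
    intro p
    induction p using Polynomial.induction_on' with
    | add p q hp hq =>
      intro x
      rw [map_add, LinearMap.add_apply, Submodule.coe_add, hp, hq, map_add, add_mul]
    | monomial n c =>
      intro x
      rw [Polynomial.aeval_monomial, Polynomial.aeval_monomial]
      induction n with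
      | zero =>
        simp [Algebra.smul_def]
      | succ n ih =>
        rw [pow_succ', pow_succ']
        have h2 : (algebraMap F (Module.End F A) c * (f * f ^ n)) x = f ((algebraMap F (Module.End F A) c * f ^ n) x) := by
          simp
        rw [h2, hfd, ih]
        ring
  refine ⟨minpoly F f, minpoly.ne_zero (Algebra.IsIntegral.isIntegral f), ?_⟩
  have h2 := h1 (minpoly F f) ⟨a, ha⟩
  have h5 : Polynomial.aeval f (minpoly F f) = 0 := minpoly.aeval F f
  have h6 : (Polynomial.aeval f (minpoly F f)) ⟨a, ha⟩ = 0 := by
    rw [h5]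
    rfl
  have h3 : Polynomial.aeval b (minpoly F f) * a = 0 := by
    refine h2.symm.trans ?_
    exact congrArg Subtype.val h6
  exact (mul_eq_zero.1 h3).resolve_right ha0

variable [IsAlgClosed F]

/-- the linear Cauchy-Davenport theorem -/
theorem lcd_aux (n : ℕ) : ∀ (A B : Submodule F E), A ≠ ⊥ → B ≠ ⊥ → FiniteDimensional F A → FiniteDimensional F B →
    finrank F B = n → finrank F A + finrank F B ≤ finrank F (A * B : Submodule F E) + 1 := by
  induction n using Nat.strong_induction_on with
  | _ n ih =>
    intro A B hA hB hfA hfB hn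
    -- scaling: the unit is in `B`
    wlog h1 : (1 : E) ∈ B generalizing B
    · obtain ⟨b, hb, hb0⟩ := (Submodule.ne_bot_iff B).1 hB
      have hbi : b⁻¹ ≠ 0 := inv_ne_zero hb0
      obtain ⟨B', hB'⟩ : ∃ B' : Submodule F E, B' = B.map (mulEq b⁻¹ hbi).toLinearMap := ⟨_, rfl⟩
      have hmem : ∀ x, x ∈ B' ↔ b * x ∈ B := by
        intro x
        rw [hB', Submodule.mem_map]
        constructor
        · rintro ⟨y, hy, rfl⟩
          have : b * (b⁻¹ * y) = y := by field_simp
          show b * (b⁻¹ * y) ∈ B
          rw [this]
          exact hy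
        · intro hx
          refine ⟨b * x, hx, ?_⟩
          show b⁻¹ * (b * x) = x
          field_simp
      have hfr : finrank F B' = finrank F B := by
        rw [hB']
        exact LinearEquiv.finrank_map_eq (mulEq b⁻¹ hbi) B
      have hfB' : FiniteDimensional F B' := by
        rw [hB']
        infer_instance
      have h1B' : (1 : E) ∈ B' := by
        rw [hmem, mul_one]
        exact hb
      have hB'0 : B' ≠ ⊥ := by
        rw [Submodule.ne_bot_iff]
        exact ⟨1, h1B', one_ne_zero⟩
      have h2 := this B' hB'0 hfB' (hfr.trans hn) h1B'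
      have h3 : (A * B' : Submodule F E) = (A * B).map (mulEq b⁻¹ hbi).toLinearMap := by
        apply le_antisymm
        · rw [Submodule.mul_le]
          intro x hx y hy
          rw [Submodule.mem_map]
          refine ⟨x * (b * y), Submodule.mul_mem_mul hx ((hmem y).1 hy), ?_⟩
          show b⁻¹ * (x * (b * y)) = x * y
          field_simp
        · rw [Submodule.map_le_iff_le_comap, Submodule.mul_le]
          intro x hx y hy
          show b⁻¹ * (x * y) ∈ A * B'
          have h4 : b⁻¹ * (x * y) = x * (b⁻¹ * y) := by ring
          rw [h4]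
          refine Submodule.mul_mem_mul hx ?_
          rw [hmem]
          have : b * (b⁻¹ * y) = y := by field_simp
          rw [this]
          exact hy
      have h4 : finrank F (A * B' : Submodule F E) = finrank F (A * B : Submodule F E) := by
        rw [h3]
        exact LinearEquiv.finrank_map_eq (mulEq b⁻¹ hbi) (A * B)
      rw [hfr, h4] at h2
      exact h2
    have hfAB : FiniteDimensional F (A * B : Submodule F E) := by
      have hA' : A.FG := (Submodule.fg_iff_finiteDimensional A).2 hfA
      have hB' : B.FG := (Submodule.fg_iff_finiteDimensional B).2 hfB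
      exact (Submodule.fg_iff_finiteDimensional _).1 (hA'.mul hB')
    by_cases hst : ∀ e ∈ A, ∀ b ∈ B, e * b ∈ A
    · -- `B` is the ground field
      have hB1 : B ≤ (1 : Submodule F E) := by
        intro b hb
        have h2 : IsAlgebraic F b := alg_of_stab A hA b fun a ha => by
          rw [mul_comm]
          exact hst a ha b hb
        have h3 : b ∈ (algebraMap F E).range := by
          apply minpoly.mem_range_of_degree_eq_one
          exact IsAlgClosed.degree_eq_one_of_irreducible F (minpoly.irreducible h2.isIntegral)
        obtain ⟨c, hc⟩ := h3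
        rw [Submodule.mem_one]
        exact ⟨c, hc⟩
      have hone : finrank F (1 : Submodule F E) = 1 := by
        rw [Submodule.one_eq_span]
        exact finrank_span_singleton one_ne_zero
      have hfone : FiniteDimensional F (1 : Submodule F E) := FiniteDimensional.of_finrank_pos (by rw [hone]; exact one_pos)
      have h2 : finrank F B ≤ 1 := by
        rw [← hone]
        exact Submodule.finrank_mono hB1
      have h3 : finrank F A ≤ finrank F (A * B : Submodule F E) := by
        apply Submodule.finrank_mono
        intro a ha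
        have := Submodule.mul_mem_mul ha h1
        rwa [mul_one] at this
      omega
    · simp only [not_forall] at hst
      obtain ⟨e, heA, b, hbB, heb⟩ := hst
      have he0 : e ≠ 0 := by
        rintro rfl
        rw [zero_mul] at heb
        exact heb (Submodule.zero_mem A)
      obtain ⟨eB, heB⟩ : ∃ eB : Submodule F E, eB = B.map (mulEq e he0).toLinearMap := ⟨_, rfl⟩
      obtain ⟨Be, hBe⟩ : ∃ Be : Submodule F E, Be = B ⊓ A.comap (mulEq e he0).toLinearMap := ⟨_, rfl⟩
      have hmemBe : ∀ x, x ∈ Be ↔ x ∈ B ∧ e * x ∈ A := by
        intro x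
        rw [hBe, Submodule.mem_inf, Submodule.mem_comap]
        rfl
      have hmemeB : ∀ x, x ∈ eB ↔ ∃ y ∈ B, e * y = x := by
        intro x
        rw [heB, Submodule.mem_map]
        rfl
      have hfeB : FiniteDimensional F eB := by
        rw [heB]
        infer_instance
      have hfBe : FiniteDimensional F Be := by
        rw [hBe]
        exact Submodule.finiteDimensional_inf_left B _
      have f1 : finrank F eB = finrank F B := by
        rw [heB]
        exact LinearEquiv.finrank_map_eq (mulEq e he0) B
      have f2 : (A ⊓ eB : Submodule F E) = Be.map (mulEq e he0).toLinearMap := by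
        ext x
        rw [Submodule.mem_inf, hmemeB, Submodule.mem_map]
        constructor
        · rintro ⟨hx, y, hy, rfl⟩
          exact ⟨y, (hmemBe y).2 ⟨hy, hx⟩, rfl⟩
        · rintro ⟨y, hy, rfl⟩
          exact ⟨((hmemBe y).1 hy).2, y, ((hmemBe y).1 hy).1, rfl⟩
      have f3 : finrank F (A ⊓ eB : Submodule F E) = finrank F Be := by
        rw [f2]
        exact LinearEquiv.finrank_map_eq (mulEq e he0) Be
      have f4 := Submodule.finrank_sup_add_finrank_inf_eq A eB
      rw [f3, f1] at f4
      have hlt : Be < B := by
        refine lt_of_le_of_ne (fun x hx => ((hmemBe x).1 hx).1) ?_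
        intro h
        rw [← h] at hbB
        exact heb ((hmemBe b).1 hbB).2
      have f5 : finrank F Be < finrank F B := Submodule.finrank_lt_finrank_of_lt hlt
      have hBe0 : Be ≠ ⊥ := by
        rw [Submodule.ne_bot_iff]
        exact ⟨1, (hmemBe 1).2 ⟨h1, by rw [mul_one]; exact heA⟩, one_ne_zero⟩
      have hAe0 : (A ⊔ eB : Submodule F E) ≠ ⊥ := by
        rw [Submodule.ne_bot_iff]
        exact ⟨e, Submodule.mem_sup_left heA, he0⟩
      have f6 := ih (finrank F Be) (by omega) (A ⊔ eB) Be hAe0 hBe0 inferInstance hfBe rfl
      have f7 : ((A ⊔ eB) * Be : Submodule F E) ≤ A * B := by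
        rw [Submodule.mul_le]
        intro x hx y hy
        obtain ⟨a, ha, z, hz, rfl⟩ := Submodule.mem_sup.1 hx
        obtain ⟨c, hc, rfl⟩ := (hmemeB z).1 hz
        obtain ⟨hy1, hy2⟩ := (hmemBe y).1 hy
        have h2 : (a + e * c) * y = a * y + (e * y) * c := by ring
        rw [h2]
        exact Submodule.add_mem _ (Submodule.mul_mem_mul ha hy1) (Submodule.mul_mem_mul hy2 hc)
      have f8 := Submodule.finrank_mono f7
      omega

theorem lcd (A B : Submodule F E) (hA : A ≠ ⊥) (hB : B ≠ ⊥) [FiniteDimensional F A] [FiniteDimensional F B] :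
    finrank F A + finrank F B ≤ finrank F (A * B : Submodule F E) + 1 :=
  lcd_aux _ A B hA hB inferInstance inferInstance rfl

omit [IsAlgClosed F] in
private theorem mul_ne_bot17 {A B : Submodule F E} (hA : A ≠ ⊥) (hB : B ≠ ⊥) : (A * B : Submodule F E) ≠ ⊥ := by
  obtain ⟨a, ha, ha0⟩ := (Submodule.ne_bot_iff A).1 hA
  obtain ⟨b, hb, hb0⟩ := (Submodule.ne_bot_iff B).1 hB
  rw [Submodule.ne_bot_iff]
  exact ⟨a * b, Submodule.mul_mem_mul ha hb, mul_ne_zero ha0 hb0⟩

/-- powers -/
theorem lcd_pow (A : Submodule F E) (hA : A ≠ ⊥) [FiniteDimensional F A] (d : ℕ) :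
    d * (finrank F A - 1) + 1 ≤ finrank F (A ^ d : Submodule F E) := by
  have hA' : A.FG := (Submodule.fg_iff_finiteDimensional A).2 inferInstance
  have hA1 : 1 ≤ finrank F A := by
    have h1 : 0 < finrank F A := by
      rw [Nat.pos_iff_ne_zero]
      intro h
      exact hA (Submodule.finrank_eq_zero.1 h)
    exact h1
  have key : ∀ d : ℕ, (A ^ d : Submodule F E).FG ∧ (A ^ d : Submodule F E) ≠ ⊥ ∧
      d * (finrank F A - 1) + 1 ≤ finrank F (A ^ d : Submodule F E) := by
    intro d
    induction d with
    | zero =>
      have hone : finrank F (1 : Submodule F E) = 1 := by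
        rw [Submodule.one_eq_span]
        exact finrank_span_singleton one_ne_zero
      rw [pow_zero]
      refine ⟨?_, ?_, ?_⟩
      · rw [Submodule.one_eq_span]
        exact Submodule.fg_span_singleton _
      · rw [Submodule.ne_bot_iff]
        exact ⟨1, Submodule.one_le.1 le_rfl, one_ne_zero⟩
      · rw [hone]
        omega
    | succ d ih =>
      obtain ⟨i1, i2, i3⟩ := ih
      rw [pow_succ]
      have hf : FiniteDimensional F (A ^ d : Submodule F E) := (Submodule.fg_iff_finiteDimensional _).1 i1
      refine ⟨i1.mul hA', mul_ne_bot17 i2 hA, ?_⟩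
      have h1 := lcd (A ^ d) A i2 hA
      have h2 : (d + 1) * (finrank F A - 1) = d * (finrank F A - 1) + (finrank F A - 1) := by ring
      omega
  exact (key d).2.2

end Pool.Agent.Helper17.PC
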