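import Pool.Agent.Helper17.PC.Lcd
import Pool.Agent.Helper64.PC.Defs

/-!
# PC, block L1 (helper17): the monomials of degree `d` in elements which span a space of dimension `s + 1` span at least
`d s + 1` dimensions over an algebraically closed field
-/

set_option autoImplicit false

namespace Pool.Agent.Helper17.PC

open Module Submodule Pool.Agent.PC
open scoped Pointwise

variable {F E : Type*} [Field F] [IsAlgClosed F] [Field E] [Algebra F E]

omit [IsAlgClosed F] [Algebra F E] [Field F] in
theorem pow_sub_mon {N : ℕ} (x : Fin (N + 1) → E) (d : ℕ) :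
    (Set.range x) ^ d ⊆ Set.range fun s : Sym (Fin (N + 1)) d => mon x s := by
  induction d with
  | zero =>
    intro y hy
    rw [pow_zero, Set.mem_one] at hy
    refine ⟨Sym.nil, ?_⟩
    rw [hy]
    simp [mon]
  | succ d ih =>
    intro y hy
    rw [pow_succ, Set.mem_mul] at hy
    obtain ⟨u, hu, v, ⟨i, rfl⟩, rfl⟩ := hy
    obtain ⟨s, rfl⟩ := ih hu
    refine ⟨i ::ₛ s, ?_⟩
    simp only [mon, Sym.coe_cons, Multiset.map_cons, Multiset.prod_cons]
    rw [mul_comm]

/-- L1 -/
theorem lcd_sym {N : ℕ} (x : Fin (N + 1) → E) (hx : x ≠ 0) (d : ℕ) :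
    d * (finrank F (span F (Set.range x)) - 1) + 1 ≤
      finrank F (span F (Set.range fun s : Sym (Fin (N + 1)) d => mon x s)) := by
  have hne : span F (Set.range x) ≠ ⊥ := by
    obtain ⟨i, hi⟩ := Function.ne_iff.1 hx
    rw [Submodule.ne_bot_iff]
    exact ⟨x i, subset_span ⟨i, rfl⟩, hi⟩
  have hf : FiniteDimensional F (span F (Set.range x)) := FiniteDimensional.span_of_finite F (Set.finite_range x)
  refine (lcd_pow (span F (Set.range x)) hne d).trans ?_
  have hf2 : FiniteDimensional F (span F (Set.range fun s : Sym (Fin (N + 1)) d => mon x s)) :=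
    FiniteDimensional.span_of_finite F (Set.finite_range _)
  apply Submodule.finrank_mono
  rw [Submodule.span_pow]
  exact span_mono (pow_sub_mon x d)

/-- the form used in the count: if `s + 1` is at most the dimension of the span of the coordinates -/
theorem lcd_sym' {N : ℕ} (x : Fin (N + 1) → E) (hx : x ≠ 0) (d s : ℕ)
    (hs : s + 1 ≤ finrank F (span F (Set.range x))) :
    d * s + 1 ≤ finrank F (span F (Set.range fun s : Sym (Fin (N + 1)) d => mon x s)) := by
  have h1 := lcd_sym (F := F) x hx d
  have h2 : d * s ≤ d * (finrank F (span F (Set.range x)) - 1) := Nat.mul_le_mul_left _ (by omega)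
  omega

end Pool.Agent.Helper17.PC

namespace Pool.Agent.PC

/-- block L1, in the form of helper64 -/
theorem span_mon {F E : Type*} [Field F] [IsAlgClosed F] [Field E] [Algebra F E] {N d s : ℕ} (x : Fin (N + 1) → E)
    (h : s + 1 ≤ Module.finrank F (Submodule.span F (Set.range x))) :
    d * s + 1 ≤ Module.finrank F (Submodule.span F (Set.range (mon (d := d) x))) := by
  by_cases hx : x = 0
  · exfalso
    have h1 : Submodule.span F (Set.range x) = ⊥ := by
      rw [Submodule.span_eq_bot]
      rintro y ⟨i, rfl⟩
      rw [hx]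
      rfl
    rw [h1, finrank_bot] at h
    omega
  · exact Pool.Agent.Helper17.PC.lcd_sym' x hx d s h

end Pool.Agent.PC
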